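import Pool.Agent.H14.TOW.Targets

/-!
# Zariski dense orbits for towers of fibrations: the statement with transcendence degrees
-/

set_option autoImplicit false

namespace Pool.Agent.H14.TOW

open MvPolynomial Cardinal

/-- independent elements of `E'` over `E` -/
theorem indep_card {k K : Type} [Field k] [Field K] [Algebra k K]
    (E E' : IntermediateField k K) (h : E ≤ E') (hf : Algebra.trdeg k E < ℵ₀) (m : ℕ)
    (hm : Algebra.trdeg k E' ≤ Algebra.trdeg k E + m) (u : Fin (m + 1) → K)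
    (hu : ∀ i, u i ∈ E') : ¬ AlgebraicIndependent E u := by
  intro hind
  let _ : Algebra E E' := (IntermediateField.inclusion h).toRingHom.toAlgebra
  have _ : IsScalarTower k E E' := IsScalarTower.of_algebraMap_eq fun x => rfl
  have _ : IsScalarTower E E' K := IsScalarTower.of_algebraMap_eq fun x => rfl
  have h1 : Algebra.trdeg k E + Algebra.trdeg E E' = Algebra.trdeg k E' :=
    trdeg_add_eq k E
  have h2 : AlgebraicIndependent E (fun i => (⟨u i, hu i⟩ : E')) :=
    (AlgHom.algebraicIndependent_iff (IsScalarTower.toAlgHom E E' K)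
      (x := fun i => (⟨u i, hu i⟩ : E')) (algebraMap E' K).injective).1 hind
  have h3 : ((m + 1 : ℕ) : Cardinal) ≤ Algebra.trdeg E E' := by
    simpa using h2.cardinalMk_le_trdeg
  obtain ⟨n, hn⟩ := Cardinal.lt_aleph0.1 hf
  rw [← h1, hn] at hm
  have h4 : ((n + (m + 1) : ℕ) : Cardinal) ≤ ((n + m : ℕ) : Cardinal) := by
    rw [Nat.cast_add n (m + 1), Nat.cast_add n m]
    exact (add_le_add_right h3 _).trans hm
  have h5 := Nat.cast_le.1 h4
  omega

/-- the theorem with transcendence degrees -/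
theorem towers (k : Type) [Field k] [CharZero k] [IsAlgClosed k] (hT : T_TOW k)
    (K : Type) [Field K] [Algebra k K] {L : ℕ} (x : Fin L → K)
    (hx : IntermediateField.adjoin k (Set.range x) = ⊤)
    (σ : K →ₐ[k] K) (hinv : ∀ a, σ a = a → ∃ c : k, a = algebraMap k K c)
    (s : ℕ) (E : ℕ → IntermediateField k K) (hE : E s = ⊤)
    (h0 : Algebra.trdeg k (E 0) ≤ 2)
    (hst : ∀ t ≤ s, ∀ a ∈ E t, σ a ∈ E t)
    (hcl : ∀ t ≤ s, ∀ a : K, IsAlgebraic (E t) a → a ∈ E t)
    (hstep : ∀ t < s, E t ≤ E (t + 1) ∧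
      (Algebra.trdeg k (E (t + 1)) ≤ Algebra.trdeg k (E t) + 1 ∨
        (Algebra.trdeg k (E (t + 1)) ≤ Algebra.trdeg k (E t) + 2 ∧
          ¬ E (t + 1) ≤ IntermediateField.adjoin k
            ((E t : Set K) ∪ σ '' (E (t + 1) : Set K)))))
    (b : MvPolynomial (Fin L) k) (hb : aeval x b ≠ 0) :
    ∃ z : ℕ → Fin L → k, (∀ (j : ℕ) (c : MvPolynomial (Fin L) k), aeval x c = 0 →
        eval (z j) c = 0) ∧ (∀ j, eval (z j) b ≠ 0) ∧ (∀ j, Nxt σ x (z j) (z (j + 1))) ∧
      ∀ c : MvPolynomial (Fin L) k, (∀ j, eval (z j) c = 0) → aeval x c = 0 := by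
  have hfin : Algebra.trdeg k K < ℵ₀ := finTrdeg_iff_trdeg.1
    ⟨⊤, hx ▸ IntermediateField.fg_adjoin_of_finite (Set.finite_range x), inferInstance⟩
  have hfE : ∀ t, Algebra.trdeg k (E t) < ℵ₀ := fun t =>
    (trdeg_le_of_injective (E t).val Subtype.val_injective).trans_lt hfin
  refine hT K σ L x b hx hb hinv s E hE ?_ hst hcl ?_
  · intro u hu hind
    have h2 : AlgebraicIndependent k (fun i => (⟨u i, hu i⟩ : E 0)) :=
      (AlgHom.algebraicIndependent_iff (E 0).val
        (x := fun i => (⟨u i, hu i⟩ : E 0)) Subtype.val_injective).1 hind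
    have h3 : ((3 : ℕ) : Cardinal) ≤ Algebra.trdeg k (E 0) := by
      simpa using h2.cardinalMk_le_trdeg
    have h4 : ((3 : ℕ) : Cardinal) ≤ ((2 : ℕ) : Cardinal) := h3.trans (by exact_mod_cast h0)
    exact absurd (Nat.cast_le.1 h4) (by norm_num)
  · intro t ht
    obtain ⟨h1, h2 | ⟨h2, h3⟩⟩ := hstep t ht
    · exact ⟨h1, Or.inl fun u hu => indep_card (E t) (E (t + 1)) h1 (hfE t) 1
        (by exact_mod_cast h2) u hu⟩
    · refine ⟨h1, Or.inr ⟨fun u hu => indep_card (E t) (E (t + 1)) h1 (hfE t) 2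
        (by exact_mod_cast h2) u hu, ?_⟩⟩
      by_contra hcon
      push Not at hcon
      exact h3 fun a ha => hcon a ha

/-- the theorem for polynomial maps of affine space -/
theorem towers_poly (k : Type) [Field k] [CharZero k] [IsAlgClosed k] (hT : T_TOW k)
    (N : ℕ) (f : Fin N → MvPolynomial (Fin N) k)
    (σ : FractionRing (MvPolynomial (Fin N) k) →ₐ[k] FractionRing (MvPolynomial (Fin N) k))
    (hσ : ∀ i, σ (algebraMap (MvPolynomial (Fin N) k) (FractionRing (MvPolynomial (Fin N) k))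
      (X i)) = algebraMap (MvPolynomial (Fin N) k) (FractionRing (MvPolynomial (Fin N) k)) (f i))
    (hinv : ∀ a, σ a = a → ∃ c : k, a = algebraMap k _ c)
    (s : ℕ) (E : ℕ → IntermediateField k (FractionRing (MvPolynomial (Fin N) k)))
    (hE : E s = ⊤) (h0 : Algebra.trdeg k (E 0) ≤ 2)
    (hst : ∀ t ≤ s, ∀ a ∈ E t, σ a ∈ E t)
    (hcl : ∀ t ≤ s, ∀ a, IsAlgebraic (E t) a → a ∈ E t)
    (hstep : ∀ t < s, E t ≤ E (t + 1) ∧
      (Algebra.trdeg k (E (t + 1)) ≤ Algebra.trdeg k (E t) + 1 ∨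
        (Algebra.trdeg k (E (t + 1)) ≤ Algebra.trdeg k (E t) + 2 ∧
          ¬ E (t + 1) ≤ IntermediateField.adjoin k
            ((E t : Set (FractionRing (MvPolynomial (Fin N) k))) ∪
              σ '' (E (t + 1) : Set (FractionRing (MvPolynomial (Fin N) k)))))))
    (b : MvPolynomial (Fin N) k) (hb : b ≠ 0) :
    ∃ z : Fin N → k,
      (∀ j : ℕ, eval ((fun (y : Fin N → k) (i : Fin N) => eval y (f i))^[j] z) b ≠ 0) ∧
      ∀ c : MvPolynomial (Fin N) k,
        (∀ j : ℕ, eval ((fun (y : Fin N → k) (i : Fin N) => eval y (f i))^[j] z) c = 0) →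
        c = 0 := by
  set K := FractionRing (MvPolynomial (Fin N) k) with hK
  have hinj : Function.Injective (algebraMap (MvPolynomial (Fin N) k) K) :=
    IsFractionRing.injective _ _
  have hav : ∀ c : MvPolynomial (Fin N) k,
      aeval (fun i => algebraMap (MvPolynomial (Fin N) k) K (X i)) c =
        algebraMap (MvPolynomial (Fin N) k) K c := by
    intro c
    have h1 : (aeval (fun i => algebraMap (MvPolynomial (Fin N) k) K (X i)) :
        MvPolynomial (Fin N) k →ₐ[k] K) = IsScalarTower.toAlgHom k _ K := by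
      ext i
      simp
    rw [h1]
    rfl
  have hgen : IntermediateField.adjoin k
      (Set.range fun i => algebraMap (MvPolynomial (Fin N) k) K (X i)) = ⊤ := by
    rw [eq_top_iff]
    intro a _
    rw [IntermediateField.mem_adjoin_range_iff]
    obtain ⟨p, q, -, rfl⟩ := IsFractionRing.div_surjective (A := MvPolynomial (Fin N) k) a
    exact ⟨p, q, by rw [hav, hav]⟩
  obtain ⟨z, -, h2, h3, h4⟩ := towers k hT K
    (fun i => algebraMap (MvPolynomial (Fin N) k) K (X i)) hgen σ hinv s E hE h0 hst hcl hstep b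
    (by rw [hav]; exact fun h => hb (hinj (by rw [h, map_zero])))
  have hz : ∀ j : ℕ, (fun (y : Fin N → k) (i : Fin N) => eval y (f i))^[j] (z 0) = z j := by
    intro j
    induction j with
    | zero => rfl
    | succ j ih =>
      rw [Function.iterate_succ_apply', ih]
      funext i
      obtain ⟨p, q, hq, hpq, hw⟩ := h3 j i
      rw [hσ, hav, hav, ← map_mul] at hpq
      have h5 := hinj hpq
      rw [← h5, map_mul] at hw
      exact (mul_right_cancel₀ hq hw).symm
  refine ⟨z 0, fun j => by rw [hz]; exact h2 j, fun c hc => ?_⟩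
  have h6 := h4 c fun j => by rw [← hz]; exact hc j
  rw [hav] at h6
  exact hinj (by rw [h6, map_zero])

end Pool.Agent.H14.TOW
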