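import Pool.Agent.H18.VZ.FinZZ
import Pool.Agent.H14.TOW.Final
import Pool.Agent.H41.TOW.BSA
import Pool.Agent.H59.TOW.CONI
import Pool.Agent.H60.TOW.DIC
import Pool.Agent.H72.TOW.EXT
import Pool.Agent.H1.TOW.FBS
import Pool.Agent.H49.TOW.LDJ
import Pool.Agent.H49.TOW.LIN
import Pool.Agent.H72.TOW.NIT
import Pool.Agent.H49.TOW.PID
import Pool.Agent.H72.TOW.RST
import Pool.Agent.H50.TOW.RVR
import Pool.Agent.H36.TOW.STA
import Pool.Agent.H49.TOW.STR
import Pool.Agent.H7.TOW.AFP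
import Pool.Agent.H69.TOW.ALF
import Pool.Agent.H60.TOW.MDA
import Pool.Agent.H68.TOW.MDL
import Pool.Agent.H97.TOW.MIT
import Pool.Agent.H61.TOW.MSL
import Pool.Agent.H69.TOW.MTD
import Pool.Agent.H97.TOW.NRM
import Pool.Agent.H59.TOW.OVP
import Pool.Agent.H89.TOW.TIN
import Pool.Agent.H46.TOW.TTH
import Pool.Agent.H78.TOW.INX
import Pool.Agent.H1.TOW.SPT
import Pool.Agent.H4.TOW.PNT
import Pool.Agent.H78.TOW.FGI
import Pool.Agent.H59.TOW.TOW
import Pool.Agent.H36.TOW.MBE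
import Pool.Agent.H50.TOWP.PDV

/-!
# Zariski dense orbits for towers of fibrations: the rows together
-/

set_option autoImplicit false

namespace Pool.Agent.H14.TOW.All

open Pool.Agent.H18.HIT Pool.Agent.H18.HX Pool.Agent.H18.VP Pool.Agent.H18.VZ
open Pool.Agent.H14.TOW

theorem lin : T_LIN := Pool.Agent.H49.TOW.pf_LIN
theorem ext : T_EXT := Pool.Agent.H72.TOW.pf_EXT lin
theorem dic : T_DIC := Pool.Agent.H60.TOW.pf_DIC lin
theorem fbs : T_FBS := Pool.Agent.H1.TOW.pf_FBS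
theorem nit : T_NIT := Pool.Agent.H72.TOW.pf_NIT
theorem ldj : T_LDJ := Pool.Agent.H49.TOW.pf_LDJ lin
theorem str : T_STR := Pool.Agent.H49.TOW.pf_STR lin ldj
theorem con : T_CON := Pool.Agent.H59.TOW.pf_CON
theorem pid : T_PID := Pool.Agent.H49.TOW.pf_PID
theorem rst : T_RST := Pool.Agent.H72.TOW.pf_RST
theorem rvr : T_RVR := Pool.Agent.H50.TOW.pf_RVR
theorem mda : T_MDA := Pool.Agent.H60.TOW.pf_MDA
theorem mdl : T_MDL := Pool.Agent.H68.TOW.pf_MDL mda pid Pool.Agent.H18.HX.All.nfa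
  Pool.Agent.H18.HX.All.nfb Pool.Agent.H18.HX.All.nfc Pool.Agent.H18.HX.All.lft
theorem mit : T_MIT := Pool.Agent.H97.TOW.pf_MIT
theorem msl : T_MSL := Pool.Agent.H61.TOW.pf_MSL
theorem mtd : T_MTD := Pool.Agent.H69.TOW.pf_MTD
theorem alf : T_ALF := Pool.Agent.H69.TOW.pf_ALF pid
theorem nrm : T_NRM := Pool.Agent.H97.TOW.pf_NRM
theorem tth : T_TTH := Pool.Agent.H46.TOW.pf_TTH lin dic con pid
theorem ovp : T_OVP := Pool.Agent.H59.TOW.pf_OVP
theorem tin : T_TIN := Pool.Agent.H89.TOW.pf_TIN lin dic con alf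
theorem afp : T_AFP := Pool.Agent.H7.TOW.pf_AFP msl

theorem fgi : T_FGI := Pool.Agent.H78.TOW.pf_FGI
theorem mbe : T_MBE := Pool.Agent.H36.TOW.pf_MBE lin dic con alf
theorem pdv : T_PDV := Pool.Agent.H50.TOWP.pf_PDV pid nrm

theorem spt : T_SPT := Pool.Agent.H1.TOW.pf_SPT lin rvr

theorem pnt (k : Type) [Field k] [CharZero k] [IsAlgClosed k] (hk : Ftd k) : T_PNT k :=
  Pool.Agent.H4.TOW.pf_PNT k mdl mit msl nrm tin ovp afp (Pool.Agent.H18.VZ.Facts.cor k hk)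
    Pool.Agent.H18.VZ.Facts.bas Pool.Agent.H18.VZ.Facts.cne

theorem inx : T_INX :=
  Pool.Agent.H78.TOW.pf_INX mdl msl mtd mbe pid rvr tth pdv Pool.Agent.H18.VZ.Facts.inv

theorem bsa : T_BSA := Pool.Agent.H41.TOW.pf_BSA inx rst rvr fgi

theorem sta : T_STA := Pool.Agent.H36.TOW.pf_STA inx rst rvr fgi fbs str spt

/-- the tower theorem for function fields -/
theorem tow (k : Type) [Field k] [CharZero k] [IsAlgClosed k] (hk : Ftd k) : T_TOW k :=
  Pool.Agent.H59.TOW.pf_TOW k (pnt k hk) bsa sta fbs fgi nit ldj ext lin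

end Pool.Agent.H14.TOW.All
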