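import Pool.Agent.H14.TOW.Final

/-!
# Zariski dense orbits for towers of fibrations: passing to algebraically closed subfields
-/

set_option autoImplicit false

namespace Pool.Agent.H14.TOW

open MvPolynomial Cardinal

variable {k K : Type} [Field k] [Field K] [Algebra k K]

/-- the algebraic closure of `E` in `K` -/
def clo (E : IntermediateField k K) : IntermediateField k K :=
  (algebraicClosure E K).restrictScalars k

theorem mem_clo (E : IntermediateField k K) (a : K) : a ∈ clo E ↔ IsAlgebraic E a :=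
  mem_algebraicClosure_iff

theorem le_clo (E : IntermediateField k K) : E ≤ clo E := fun a ha =>
  (mem_clo E a).2 (isAlgebraic_algebraMap (⟨a, ha⟩ : E))

theorem clo_mono {E E' : IntermediateField k K} (h : E ≤ E') : clo E ≤ clo E' := by
  intro a ha
  rw [mem_clo] at ha ⊢
  obtain ⟨p, hp, hpa⟩ := ha
  refine ⟨p.map (IntermediateField.inclusion h).toRingHom, ?_, ?_⟩
  · exact (Polynomial.map_ne_zero_iff (IntermediateField.inclusion h).injective).2 hp
  · rw [Polynomial.aeval_def, Polynomial.eval₂_map]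
    exact hpa

theorem clo_closed (E : IntermediateField k K) (a : K) (ha : IsAlgebraic (clo E) a) :
    a ∈ clo E := by
  rw [mem_clo]
  have h : IsAlgebraic (algebraicClosure E K) a := ha
  exact IsAlgebraic.restrictScalars E h

theorem clo_eq {E : IntermediateField k K} (h : ∀ a : K, IsAlgebraic E a → a ∈ E) :
    clo E = E :=
  le_antisymm (fun a ha => h a ((mem_clo E a).1 ha)) (le_clo E)

theorem trdeg_clo (E : IntermediateField k K) :
    Algebra.trdeg k (clo E) = Algebra.trdeg k E := by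
  have h1 : Algebra.trdeg k E + Algebra.trdeg E (algebraicClosure E K) =
      Algebra.trdeg k (algebraicClosure E K) := trdeg_add_eq k E
  have h2 : Algebra.trdeg E (algebraicClosure E K) = 0 := trdeg_eq_zero
  rw [h2, add_zero] at h1
  exact h1.symm

theorem clo_stable (σ : K →ₐ[k] K) (E : IntermediateField k K) (h : ∀ a ∈ E, σ a ∈ E) (a : K)
    (ha : a ∈ clo E) : σ a ∈ clo E := by
  rw [mem_clo] at ha ⊢
  obtain ⟨p, hp, hpa⟩ := ha
  let σE : E →+* E :=
    { toFun := fun a => ⟨σ a, h a a.2⟩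
      map_one' := Subtype.ext (by simp)
      map_mul' := fun a b => Subtype.ext (by simp)
      map_zero' := Subtype.ext (by simp)
      map_add' := fun a b => Subtype.ext (by simp) }
  refine ⟨p.map σE, ?_, ?_⟩
  · exact (Polynomial.map_ne_zero_iff σE.injective).2 hp
  · rw [Polynomial.aeval_def, Polynomial.eval₂_map]
    have h3 : (algebraMap E K).comp σE = (σ : K →+* K).comp (algebraMap E K) := by
      ext a
      rfl
    rw [h3]
    refine (Polynomial.hom_eval₂ p (algebraMap E K) (σ : K →+* K) a).symm.trans ?_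
    rw [← Polynomial.aeval_def, hpa, map_zero]

/-- the algebraic closures of the fields of a tower -/
theorem clo_tower (σ : K →ₐ[k] K) (s : ℕ) (E : ℕ → IntermediateField k K) (hE : E s = ⊤)
    (h0 : Algebra.trdeg k (E 0) ≤ 2) (hst : ∀ t ≤ s, ∀ a ∈ E t, σ a ∈ E t)
    (hstep : ∀ t < s, E t ≤ E (t + 1) ∧
      (Algebra.trdeg k (E (t + 1)) ≤ Algebra.trdeg k (E t) + 1 ∨
        (Algebra.trdeg k (E (t + 1)) ≤ Algebra.trdeg k (E t) + 2 ∧
          (∀ a : K, IsAlgebraic (E t) a → a ∈ E t) ∧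
          (∀ a : K, IsAlgebraic (E (t + 1)) a → a ∈ E (t + 1)) ∧
          ¬ E (t + 1) ≤ IntermediateField.adjoin k
            ((E t : Set K) ∪ σ '' (E (t + 1) : Set K))))) :
    clo (E s) = ⊤ ∧ Algebra.trdeg k (clo (E 0)) ≤ 2 ∧
    (∀ t ≤ s, ∀ a ∈ clo (E t), σ a ∈ clo (E t)) ∧
    (∀ t ≤ s, ∀ a : K, IsAlgebraic (clo (E t)) a → a ∈ clo (E t)) ∧
    ∀ t < s, clo (E t) ≤ clo (E (t + 1)) ∧
      (Algebra.trdeg k (clo (E (t + 1))) ≤ Algebra.trdeg k (clo (E t)) + 1 ∨
        (Algebra.trdeg k (clo (E (t + 1))) ≤ Algebra.trdeg k (clo (E t)) + 2 ∧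
          ¬ clo (E (t + 1)) ≤ IntermediateField.adjoin k
            ((clo (E t) : Set K) ∪ σ '' (clo (E (t + 1)) : Set K)))) := by
  refine ⟨top_le_iff.1 (hE ▸ le_clo (E s)), (trdeg_clo (E 0)).le.trans h0,
    fun t ht => clo_stable σ (E t) (hst t ht), fun t _ => clo_closed (E t), fun t ht => ?_⟩
  obtain ⟨h1, h2⟩ := hstep t ht
  refine ⟨clo_mono h1, ?_⟩
  rw [trdeg_clo, trdeg_clo]
  rcases h2 with h2 | ⟨h2, h3, h4, h5⟩
  · exact Or.inl h2
  · rw [clo_eq h3, clo_eq h4]
    exact Or.inr ⟨h2, h5⟩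

/-- the theorem with arbitrary invariant subfields for the steps of dimension one -/
theorem towers' (k : Type) [Field k] [CharZero k] [IsAlgClosed k] (hT : T_TOW k)
    (K : Type) [Field K] [Algebra k K] {L : ℕ} (x : Fin L → K)
    (hx : IntermediateField.adjoin k (Set.range x) = ⊤)
    (σ : K →ₐ[k] K) (hinv : ∀ a, σ a = a → ∃ c : k, a = algebraMap k K c)
    (s : ℕ) (E : ℕ → IntermediateField k K) (hE : E s = ⊤)
    (h0 : Algebra.trdeg k (E 0) ≤ 2)
    (hst : ∀ t ≤ s, ∀ a ∈ E t, σ a ∈ E t)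
    (hstep : ∀ t < s, E t ≤ E (t + 1) ∧
      (Algebra.trdeg k (E (t + 1)) ≤ Algebra.trdeg k (E t) + 1 ∨
        (Algebra.trdeg k (E (t + 1)) ≤ Algebra.trdeg k (E t) + 2 ∧
          (∀ a : K, IsAlgebraic (E t) a → a ∈ E t) ∧
          (∀ a : K, IsAlgebraic (E (t + 1)) a → a ∈ E (t + 1)) ∧
          ¬ E (t + 1) ≤ IntermediateField.adjoin k
            ((E t : Set K) ∪ σ '' (E (t + 1) : Set K)))))
    (b : MvPolynomial (Fin L) k) (hb : aeval x b ≠ 0) :
    ∃ z : ℕ → Fin L → k, (∀ (j : ℕ) (c : MvPolynomial (Fin L) k), aeval x c = 0 →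
        eval (z j) c = 0) ∧ (∀ j, eval (z j) b ≠ 0) ∧ (∀ j, Nxt σ x (z j) (z (j + 1))) ∧
      ∀ c : MvPolynomial (Fin L) k, (∀ j, eval (z j) c = 0) → aeval x c = 0 := by
  obtain ⟨h1, h2, h3, h4, h5⟩ := clo_tower σ s E hE h0 hst hstep
  exact towers k hT K x hx σ hinv s (fun t => clo (E t)) h1 h2 h3 h4 h5 b hb

/-- the theorem for polynomial maps with arbitrary invariant subfields for the steps of dimension
one -/
theorem towers_poly' (k : Type) [Field k] [CharZero k] [IsAlgClosed k] (hT : T_TOW k)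
    (N : ℕ) (f : Fin N → MvPolynomial (Fin N) k)
    (σ : FractionRing (MvPolynomial (Fin N) k) →ₐ[k] FractionRing (MvPolynomial (Fin N) k))
    (hσ : ∀ i, σ (algebraMap (MvPolynomial (Fin N) k) (FractionRing (MvPolynomial (Fin N) k))
      (X i)) = algebraMap (MvPolynomial (Fin N) k) (FractionRing (MvPolynomial (Fin N) k)) (f i))
    (hinv : ∀ a, σ a = a → ∃ c : k, a = algebraMap k _ c)
    (s : ℕ) (E : ℕ → IntermediateField k (FractionRing (MvPolynomial (Fin N) k)))
    (hE : E s = ⊤) (h0 : Algebra.trdeg k (E 0) ≤ 2)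
    (hst : ∀ t ≤ s, ∀ a ∈ E t, σ a ∈ E t)
    (hstep : ∀ t < s, E t ≤ E (t + 1) ∧
      (Algebra.trdeg k (E (t + 1)) ≤ Algebra.trdeg k (E t) + 1 ∨
        (Algebra.trdeg k (E (t + 1)) ≤ Algebra.trdeg k (E t) + 2 ∧
          (∀ a, IsAlgebraic (E t) a → a ∈ E t) ∧
          (∀ a, IsAlgebraic (E (t + 1)) a → a ∈ E (t + 1)) ∧
          ¬ E (t + 1) ≤ IntermediateField.adjoin k
            ((E t : Set (FractionRing (MvPolynomial (Fin N) k))) ∪
              σ '' (E (t + 1) : Set (FractionRing (MvPolynomial (Fin N) k)))))))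
    (b : MvPolynomial (Fin N) k) (hb : b ≠ 0) :
    ∃ z : Fin N → k,
      (∀ j : ℕ, eval ((fun (y : Fin N → k) (i : Fin N) => eval y (f i))^[j] z) b ≠ 0) ∧
      ∀ c : MvPolynomial (Fin N) k,
        (∀ j : ℕ, eval ((fun (y : Fin N → k) (i : Fin N) => eval y (f i))^[j] z) c = 0) →
        c = 0 := by
  obtain ⟨h1, h2, h3, h4, h5⟩ := clo_tower σ s E hE h0 hst hstep
  exact towers_poly k hT N f σ hσ hinv s (fun t => clo (E t)) h1 h2 h3 h4 h5 b hb

end Pool.Agent.H14.TOW
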