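import Mathlib

/-!
# Zariski dense orbits for towers of fibrations: definitions

`K` is the function field of a variety over `k` and `σ` the pull-back of functions by a dominant
rational self-map.
-/

set_option autoImplicit false

namespace Pool.Agent.H14.TOW

open MvPolynomial

section

variable {k K : Type} [Field k] [Field K] [Algebra k K] {ι : Type} [Fintype ι]

/-- linear independence over the image of `σ` -/
def Ind (σ : K →ₐ[k] K) (β : ι → K) : Prop :=
  ∀ c : ι → K, ∑ i, β i * σ (c i) = 0 → ∀ i, c i = 0

/-- `a` is a linear combination of `β` over the image of `σ` -/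
def Cmb (σ : K →ₐ[k] K) (β : ι → K) (a : K) : Prop := ∃ c : ι → K, a = ∑ i, β i * σ (c i)

/-- `β` generates `K` over the image of `σ` -/
def Spn (σ : K →ₐ[k] K) (β : ι → K) : Prop := ∀ a, Cmb σ β a

end

section

variable {k K κ : Type} [Field k] [Field K] [Field κ] [Algebra k K] [Algebra k κ]

/-- the value at a place of `K`, `0` outside the local ring `O` -/
noncomputable def rv (O : Subalgebra k K) (ρ : O →ₐ[k] κ) (a : K) : κ :=
  open Classical in if h : a ∈ O then ρ ⟨a, h⟩ else 0

/-- a unit of the local ring -/
def Uni (O : Subalgebra k K) (ρ : O →ₐ[k] κ) (a : K) : Prop := a ∈ O ∧ rv O ρ a ≠ 0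

/-- a place of `K` with values in `κ`, invariant under `σ`: a local ring `O` with a homomorphism
`ρ` to `κ` the kernel of which is the maximal ideal; `τ` is the induced map -/
structure Plc (σ : K →ₐ[k] K) (O : Subalgebra k K) (ρ : O →ₐ[k] κ) (τ : κ →ₐ[k] κ) : Prop where
  unit : ∀ a ∈ O, rv O ρ a ≠ 0 → a⁻¹ ∈ O
  stab : ∀ a ∈ O, σ a ∈ O ∧ rv O ρ (σ a) = τ (rv O ρ a)

end

/-- no invariant functions -/
def Nfb {k K : Type} [Field k] [Field K] [Algebra k K] (σ : K →ₐ[k] K) : Prop :=
  ∀ a, σ a = a → ∃ c : k, a = algebraMap k K c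

/-- finitely generated -/
def Fgn (k K : Type) [Field k] [Field K] [Algebra k K] : Prop :=
  (⊤ : IntermediateField k K).FG

/-- the point `w` follows the point `z` in the orbit: for each coordinate function `x i` the
function `σ (x i) = p / q` is regular at `z` with the value `w i` -/
def Nxt {k K : Type} [Field k] [Field K] [Algebra k K] (σ : K →ₐ[k] K) {L : ℕ} (x : Fin L → K)
    (z w : Fin L → k) : Prop :=
  ∀ i, ∃ p q : MvPolynomial (Fin L) k, eval z q ≠ 0 ∧ σ (x i) * aeval x q = aeval x p ∧
    w i * eval z q = eval z p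

/-- the ideal of the polynomials all components of which vanish at `v` -/
noncomputable def pid {k κ : Type} [Field k] [Field κ] [Algebra k κ] {L : ℕ} (v : Fin L → κ) :
    Ideal (MvPolynomial (Fin L) k) :=
  RingHom.ker (aeval (fun i => Polynomial.C (v i) * Polynomial.X) :
    MvPolynomial (Fin L) k →ₐ[k] Polynomial κ)

end Pool.Agent.H14.TOW
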