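import Pool.Agent.H14.TOW.Defs

/-!
# Zariski dense orbits for towers of fibrations: targets, fields
-/

set_option autoImplicit false

namespace Pool.Agent.H14.TOW

open MvPolynomial

/-- LIN: linear algebra over the image of `σ` -/
def T_LIN : Prop := ∀ (k K : Type) [Field k] [Field K] [Algebra k K] (σ : K →ₐ[k] K)
  (ι ι' : Type) [Fintype ι] [Fintype ι'] (β : ι → K) (γ : ι' → K),
  (∀ i, Cmb σ β (γ i)) → Ind σ γ → Fintype.card ι' ≤ Fintype.card ι ∧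
    (Fintype.card ι ≤ Fintype.card ι' → Ind σ β ∧ ∀ a, Cmb σ β a → Cmb σ γ a)

/-- EXT: extension to a basis -/
def T_EXT : Prop := ∀ (k K : Type) [Field k] [Field K] [Algebra k K] (σ : K →ₐ[k] K)
  (n m : ℕ) (β : Fin n → K) (γ : Fin m → K), Ind σ β → Spn σ β → Ind σ γ →
  ∃ (δ : Fin n → K) (h : m ≤ n), Ind σ δ ∧ Spn σ δ ∧ ∀ i, δ (Fin.castLE h i) = γ i

/-- DIC: the combinations of elements of a ring are closed under division -/
def T_DIC : Prop := ∀ (k K : Type) [Field k] [Field K] [Algebra k K] (σ : K →ₐ[k] K)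
  (ι : Type) [Fintype ι] (β : ι → K) (S : Subalgebra k K), (∀ i, β i ∈ S) →
  (∀ s ∈ S, Cmb σ β s) → ∀ a ∈ S, ∀ b ∈ S, b ≠ 0 → Cmb σ β (a / b)

/-- FBS: the degree is finite -/
def T_FBS : Prop := ∀ (k K : Type) [Field k] [Field K] [Algebra k K] (σ : K →ₐ[k] K), Fgn k K →
  ∃ (e : ℕ) (β : Fin e → K), Ind σ β ∧ Spn σ β

/-- FGI: subfields of finitely generated fields -/
def T_FGI : Prop := ∀ (k K : Type) [Field k] [Field K] [Algebra k K], Fgn k K →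
  ∀ E : IntermediateField k K, Fgn k E

/-- NIT: iterates have no invariant functions -/
def T_NIT : Prop := ∀ (k K : Type) [Field k] [IsAlgClosed k] [Field K] [Algebra k K]
  (σ : K →ₐ[k] K), Nfb σ → ∀ m : ℕ, 1 ≤ m → Nfb (σ ^ m)

/-- LDJ: linear disjointness of an algebraically closed subfield and the image of `σ` -/
def T_LDJ : Prop := ∀ (k K : Type) [Field k] [CharZero k] [Field K] [Algebra k K]
  (σ : K →ₐ[k] K) (E : IntermediateField k K) (σE : E →ₐ[k] E), (∀ a : E, (σE a : K) = σ a) →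
  (∀ a : K, IsAlgebraic E a → a ∈ E) → (∃ (e : ℕ) (β : Fin e → E), Spn σE β) →
  ∀ (e : ℕ) (γ : Fin e → E), Ind σE γ → Ind σ (fun i => (γ i : K))

/-- STR: the degree grows when the map is not birational on the fibres -/
def T_STR : Prop := ∀ (k K : Type) [Field k] [CharZero k] [Field K] [Algebra k K]
  (σ : K →ₐ[k] K) (E E' : IntermediateField k K) (σE : E →ₐ[k] E) (σE' : E' →ₐ[k] E'),
  (∀ a : E, (σE a : K) = σ a) → (∀ a : E', (σE' a : K) = σ a) → E ≤ E' →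
  (∀ a : K, IsAlgebraic E a → a ∈ E) →
  (∃ a ∈ E', a ∉ IntermediateField.adjoin k ((E : Set K) ∪ σ '' (E' : Set K))) →
  ∀ (e e' : ℕ) (γ : Fin e → E) (β : Fin e' → E'), Ind σE γ → Spn σE γ → Ind σE' β → Spn σE' β →
    e < e'

/-- CON: the field of the cone -/
def T_CON : Prop := ∀ (k K : Type) [Field k] [Field K] [Algebra k K] (σ : K →ₐ[k] K) (lam : K)
  (d : ℕ), lam ≠ 0 → 1 ≤ d → ∃ Φ : RatFunc K →ₐ[k] RatFunc K,
    (∀ a, Φ (RatFunc.C a) = RatFunc.C (σ a)) ∧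
    Φ RatFunc.X = RatFunc.C lam * RatFunc.X ^ d ∧
    ∀ (e : ℕ) (β : Fin e → K),
      (Ind σ β → Ind Φ (fun i : Fin e × Fin d => RatFunc.C (β i.1) * RatFunc.X ^ (i.2 : ℕ))) ∧
      (Spn σ β → Spn Φ (fun i : Fin e × Fin d => RatFunc.C (β i.1) * RatFunc.X ^ (i.2 : ℕ)))

/-- PID: the ideal of a point -/
def T_PID : Prop := ∀ (k κ : Type) [Field k] [Field κ] [Algebra k κ] (L : ℕ) (v : Fin L → κ),
  (pid (k := k) v).IsPrime ∧ ∀ c : MvPolynomial (Fin L) k,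
    (c ∈ pid v ↔ ∀ t, aeval v (homogeneousComponent t c) = 0) ∧
    (c ∈ pid v → ∀ t, homogeneousComponent t c ∈ pid v) ∧
    ∀ t, c.IsHomogeneous t → (c ∈ pid v ↔ aeval v c = 0)

/-- RST: restriction of a place -/
def T_RST : Prop := ∀ (k K κ : Type) [Field k] [Field K] [Algebra k K] [Field κ] [Algebra k κ]
  (σ : K →ₐ[k] K) (O : Subalgebra k K) (ρ : O →ₐ[k] κ) (τ : κ →ₐ[k] κ)
  (E : IntermediateField k K) (σE : E →ₐ[k] E), (∀ a : E, (σE a : K) = σ a) → Plc σ O ρ τ →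
  ∃ (OE : Subalgebra k E) (ρE : OE →ₐ[k] κ), Plc σE OE ρE τ ∧
    ∀ a : E, (a ∈ OE ↔ (a : K) ∈ O) ∧ rv OE ρE a = rv O ρ (a : K)

/-- RVR: the value of a rational expression -/
def T_RVR : Prop := ∀ (k K κ : Type) [Field k] [Field K] [Algebra k K] [Field κ] [Algebra k κ]
  (σ : K →ₐ[k] K) (O : Subalgebra k K) (ρ : O →ₐ[k] κ) (τ : κ →ₐ[k] κ), Plc σ O ρ τ →
  (∀ (L : ℕ) (y : Fin L → K), (∀ i, y i ∈ O) → ∀ c : MvPolynomial (Fin L) k,
    aeval y c ∈ O ∧ rv O ρ (aeval y c) = aeval (fun i => rv O ρ (y i)) c) ∧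
  (∀ a b : K, a ∈ O → b ∈ O → a * b ∈ O ∧ rv O ρ (a * b) = rv O ρ a * rv O ρ b ∧
    a - b ∈ O ∧ rv O ρ (a - b) = rv O ρ a - rv O ρ b) ∧
  ∀ a b c : K, Uni O ρ b → c ∈ O → a * b = c → a ∈ O ∧ rv O ρ a * rv O ρ b = rv O ρ c

/-- SPT: places which are algebraic over a subfield -/
def T_SPT : Prop := ∀ (k K κ : Type) [Field k] [Field K] [Algebra k K] [Field κ] [Algebra k κ]
  (σ : K →ₐ[k] K) (O : Subalgebra k K) (ρ : O →ₐ[k] κ) (τ : κ →ₐ[k] κ)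
  (E : IntermediateField k K) (σE : E →ₐ[k] E) (n q e e' : ℕ) (u : Fin n → K) (w : Fin q → K)
  (A B : Fin q → MvPolynomial (Fin q) k) (A' B' : Fin e' → MvPolynomial (Fin q) k)
  (γ : Fin e → E) (β : Fin e' → K), Plc σ O ρ τ → (∀ a : E, (σE a : K) = σ a) →
  (∀ a ∈ E, a ≠ 0 → Uni O ρ a) → (∀ i, u i ∈ E) → AlgebraicIndependent k u →
  (∀ i, w i ∈ O) → (∀ i, Uni O ρ (aeval w (B i)) ∧ σ (w i) * aeval w (B i) = aeval w (A i)) →
  (∀ i, ¬ AlgebraicIndependent k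
    (Fin.snoc (fun j => rv O ρ (u j)) (rv O ρ (w i)) : Fin (n + 1) → κ)) →
  (∀ i, Uni O ρ (aeval w (B' i)) ∧ β i * aeval w (B' i) = aeval w (A' i)) →
  Spn σE γ → Ind τ (fun i => rv O ρ (β i)) → e' ≤ e

/-- INX: totally invariant places of codimension one do not exist outside a closed set -/
def T_INX : Prop := ∀ (k E : Type) [Field k] [CharZero k] [IsAlgClosed k] [Field E]
  [Algebra k E] (σ : E →ₐ[k] E), Fgn k E → Nfb σ → ∀ (n e j : ℕ) (γ : Fin e → E)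
  (u : Fin j → E), Algebra.trdeg k E = n → Ind σ γ → Spn σ γ → n ≤ j + 1 →
  ∃ A : Finset E, (0 : E) ∉ A ∧ ∀ (κ : Type) [Field κ] [Algebra k κ] (O : Subalgebra k E)
    (ρ : O →ₐ[k] κ) (τ : κ →ₐ[k] κ), Plc σ O ρ τ → (∀ a ∈ A, Uni O ρ a) →
    Ind τ (fun i => rv O ρ (γ i)) → AlgebraicIndependent k (fun i => rv O ρ (u i)) →
    ∀ a, a ≠ 0 → Uni O ρ a

/-- PNT: points the orbits of which give totally invariant places -/
def T_PNT (k : Type) [Field k] : Prop := ∀ (K : Type) [Field K] [Algebra k K] (σ : K →ₐ[k] K)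
  (L : ℕ) (x : Fin L → K) (b : MvPolynomial (Fin L) k),
  IntermediateField.adjoin k (Set.range x) = ⊤ → aeval x b ≠ 0 →
  ∃ m : ℕ, 1 ≤ m ∧ ∀ (e s : ℕ) (β : Fin s → Fin e → K), (∀ t, Ind (σ ^ m) (β t)) →
    (∀ t, Spn (σ ^ m) (β t)) → ∀ A : Finset K, (0 : K) ∉ A →
    ∃ z : ℕ → Fin L → k, (∀ (j : ℕ) (c : MvPolynomial (Fin L) k), aeval x c = 0 →
        eval (z j) c = 0) ∧ (∀ j, eval (z j) b ≠ 0) ∧ (∀ j, Nxt σ x (z j) (z (j + 1))) ∧
      ∃ (κ : Type) (_ : Field κ) (_ : Algebra k κ) (O : Subalgebra k K) (ρ : O →ₐ[k] κ)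
        (τ : κ →ₐ[k] κ), Plc (σ ^ m) O ρ τ ∧ (∀ a ∈ A, Uni O ρ a) ∧
        (∀ t, Ind τ (fun i => rv O ρ (β t i))) ∧
        ((∀ a, a ≠ 0 → Uni O ρ a) → ∀ c : MvPolynomial (Fin L) k, (∀ j, eval (z j) c = 0) →
          aeval x c = 0)

/-- the condition on the fields of the tower: `E` is contained in `E'`, and the transcendence
degree of `E'` over `E` is at most `1`, or it is at most `2` and the map is not birational on the
fibres -/
def Stp {k K : Type} [Field k] [Field K] [Algebra k K] (σ : K →ₐ[k] K)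
    (E E' : IntermediateField k K) : Prop :=
  E ≤ E' ∧ ((∀ u : Fin 2 → K, (∀ i, u i ∈ E') → ¬ AlgebraicIndependent E u) ∨
    ((∀ u : Fin 3 → K, (∀ i, u i ∈ E') → ¬ AlgebraicIndependent E u) ∧
      ∃ a ∈ E', a ∉ IntermediateField.adjoin k ((E : Set K) ∪ σ '' (E' : Set K))))

/-- BSA: the place is trivial on a subfield of transcendence degree at most two -/
def T_BSA : Prop := ∀ (k K : Type) [Field k] [CharZero k] [IsAlgClosed k] [Field K]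
  [Algebra k K] (σ : K →ₐ[k] K) (E : IntermediateField k K) (σE : E →ₐ[k] E),
  (∀ a : E, (σE a : K) = σ a) → Fgn k K → Nfb σ →
  (∀ u : Fin 3 → K, (∀ i, u i ∈ E) → ¬ AlgebraicIndependent k u) →
  ∀ (e : ℕ) (γ : Fin e → E), Ind σE γ → Spn σE γ → ∃ A : Finset K, (0 : K) ∉ A ∧
    ∀ (κ : Type) [Field κ] [Algebra k κ] (O : Subalgebra k K) (ρ : O →ₐ[k] κ) (τ : κ →ₐ[k] κ),
      Plc σ O ρ τ → (∀ a ∈ A, Uni O ρ a) → Ind τ (fun i => rv O ρ (γ i : K)) →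
      ∀ a ∈ E, a ≠ 0 → Uni O ρ a

/-- STA: a step of the tower -/
def T_STA : Prop := ∀ (k K : Type) [Field k] [CharZero k] [IsAlgClosed k] [Field K]
  [Algebra k K] (σ : K →ₐ[k] K) (E E' : IntermediateField k K) (σE : E →ₐ[k] E)
  (σE' : E' →ₐ[k] E'), (∀ a : E, (σE a : K) = σ a) → (∀ a : E', (σE' a : K) = σ a) →
  Fgn k K → Nfb σ → (∀ a : K, IsAlgebraic E a → a ∈ E) → Stp σ E E' →
  ∀ (e : ℕ) (γ : Fin e → E'), Ind σE' γ → Spn σE' γ → ∃ A : Finset K, (0 : K) ∉ A ∧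
    ∀ (κ : Type) [Field κ] [Algebra k κ] (O : Subalgebra k K) (ρ : O →ₐ[k] κ) (τ : κ →ₐ[k] κ),
      Plc σ O ρ τ → (∀ a ∈ A, Uni O ρ a) → Ind τ (fun i => rv O ρ (γ i : K)) →
      (∀ a ∈ E, a ≠ 0 → Uni O ρ a) → ∀ a ∈ E', a ≠ 0 → Uni O ρ a

/-- TOW: the theorem for function fields -/
def T_TOW (k : Type) [Field k] : Prop := ∀ (K : Type) [Field K] [Algebra k K]
  (σ : K →ₐ[k] K) (L : ℕ) (x : Fin L → K) (b : MvPolynomial (Fin L) k),
  IntermediateField.adjoin k (Set.range x) = ⊤ → aeval x b ≠ 0 → Nfb σ →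
  ∀ (s : ℕ) (E : ℕ → IntermediateField k K), E s = ⊤ →
  (∀ u : Fin 3 → K, (∀ i, u i ∈ E 0) → ¬ AlgebraicIndependent k u) →
  (∀ t ≤ s, ∀ a ∈ E t, σ a ∈ E t) → (∀ t ≤ s, ∀ a : K, IsAlgebraic (E t) a → a ∈ E t) →
  (∀ t < s, Stp σ (E t) (E (t + 1))) →
  ∃ z : ℕ → Fin L → k, (∀ (j : ℕ) (c : MvPolynomial (Fin L) k), aeval x c = 0 →
      eval (z j) c = 0) ∧ (∀ j, eval (z j) b ≠ 0) ∧ (∀ j, Nxt σ x (z j) (z (j + 1))) ∧
    ∀ c : MvPolynomial (Fin L) k, (∀ j, eval (z j) c = 0) → aeval x c = 0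

end Pool.Agent.H14.TOW
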