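import Pool.Agent.H14.TOW.Targets
import Pool.Agent.H18.VZ.Targets
import Pool.Agent.H18.VP.Targets

/-!
# Zariski dense orbits for towers of fibrations: targets, hypersurface models
-/

set_option autoImplicit false

namespace Pool.Agent.H14.TOW

open MvPolynomial
open Pool.Agent.H12.ZD (pmap)
open Pool.Agent.H18.HIT Pool.Agent.H18.HX Pool.Agent.H18.VP Pool.Agent.H18.VZ

/-- the hypersurface `P = 0` with the self-map `F` is a model of the field `E` with the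
endomorphism `σ`; the homogeneous coordinates are `y i`, normalised by `y 1 = 1` -/
structure Mdl {k E : Type} [Field k] [Field E] [Algebra k E] (σ : E →ₐ[k] E) {n : ℕ}
    (P : Po (n + 1 + 1) k) (r d : ℕ) (F : Tup (n + 1 + 1) k) (y : Fin (n + 1 + 1) → E) :
    Prop where
  hyp : Hyp P r
  le : r ≤ d
  two : 2 ≤ d
  hom : ∀ i, (F i).IsHomogeneous d
  y1 : y (Fin.succ 0) = 1
  ker : ∀ (m : ℕ) (c : Po (n + 1 + 1) k), c.IsHomogeneous m → (aeval y c = 0 ↔ P ∣ c)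
  gen : ∀ a : E, ∃ (m : ℕ) (A B : Po (n + 1 + 1) k), A.IsHomogeneous m ∧ B.IsHomogeneous m ∧
    aeval y B ≠ 0 ∧ a * aeval y B = aeval y A
  map : ∀ i, aeval y (F i) = aeval y (F (Fin.succ 0)) * σ (y i)
  ne : aeval y (F (Fin.succ 0)) ≠ 0

/-- `a` is a quotient of two forms of the same degree at the point `v` -/
def Quo {k κ : Type} [Field k] [Field κ] [Algebra k κ] {L : ℕ} (v : Fin L → κ) (a : κ) : Prop :=
  ∃ (m : ℕ) (A B : Po L k), A.IsHomogeneous m ∧ B.IsHomogeneous m ∧ aeval v B ≠ 0 ∧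
    a * aeval v B = aeval v A

/-- MDA: generators and forms -/
def T_MDA : Prop := ∀ (k E : Type) [Field k] [Field E] [Algebra k E] (σ : E →ₐ[k] E), Fgn k E →
  ∃ (L D : ℕ) (w : Fin (L + 1) → E) (f : Tup (L + 1) k), w 0 = 1 ∧
    IntermediateField.adjoin k (Set.range w) = ⊤ ∧ 1 ≤ D ∧ (∀ i, (f i).IsHomogeneous D) ∧
    aeval w (f 0) ≠ 0 ∧ ∀ i, aeval w (f i) = aeval w (f 0) * σ (w i)

/-- MDL: existence of a model -/
def T_MDL : Prop := ∀ (k E : Type) [Field k] [CharZero k] [IsAlgClosed k] [Field E]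
  [Algebra k E] (σ : E →ₐ[k] E), Fgn k E →
  ∃ (n r d : ℕ) (P : Po (n + 1 + 1) k) (F : Tup (n + 1 + 1) k) (y : Fin (n + 1 + 1) → E),
    Mdl σ P r d F y

/-- MIT: iterates of a model -/
def T_MIT : Prop := ∀ (k E : Type) [Field k] [Field E] [Algebra k E] (σ : E →ₐ[k] E)
  (n r d m : ℕ) (P : Po (n + 1 + 1) k) (F : Tup (n + 1 + 1) k) (y : Fin (n + 1 + 1) → E),
  Mdl σ P r d F y → 1 ≤ m → Mdl (σ ^ m) P r (d ^ m) (it F m) y

/-- MSL: the map of a model is a dominant self-map, without invariant functions -/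
def T_MSL : Prop := ∀ (k E : Type) [Field k] [Field E] [Algebra k E] (σ : E →ₐ[k] E)
  (n r d : ℕ) (P : Po (n + 1 + 1) k) (F : Tup (n + 1 + 1) k) (y : Fin (n + 1 + 1) → E),
  Mdl σ P r d F y → Slf (Ideal.span {P}) F ∧ (Nfb σ → NIv P F)

/-- MTD: the dimension of a model -/
def T_MTD : Prop := ∀ (k E : Type) [Field k] [Field E] [Algebra k E] (σ : E →ₐ[k] E)
  (n r d : ℕ) (P : Po (n + 1 + 1) k) (F : Tup (n + 1 + 1) k) (y : Fin (n + 1 + 1) → E),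
  Mdl σ P r d F y → Algebra.trdeg k E = n

/-- ALF: the coordinate ring of a model in the field of the cone -/
def T_ALF : Prop := ∀ (k E : Type) [Field k] [Field E] [Algebra k E] (σ : E →ₐ[k] E)
  (n r d : ℕ) (P : Po (n + 1 + 1) k) (F : Tup (n + 1 + 1) k) (y : Fin (n + 1 + 1) → E),
  Mdl σ P r d F y → ∀ α : Po (n + 1 + 1) k →ₐ[k] RatFunc E,
    α = aeval (fun i => RatFunc.C (y i) * RatFunc.X) →
    (∀ c, α c = 0 ↔ P ∣ c) ∧ (∀ a, ∃ A B, α B ≠ 0 ∧ a * α B = α A) ∧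
    ∀ Φ : RatFunc E →ₐ[k] RatFunc E, (∀ a, Φ (RatFunc.C a) = RatFunc.C (σ a)) →
      Φ RatFunc.X = RatFunc.C (aeval y (F (Fin.succ 0))) * RatFunc.X ^ d →
      ∀ c, Φ (α c) = α (aeval F c)

/-- MBE: bases of the coordinate ring -/
def T_MBE : Prop := ∀ (k E : Type) [Field k] [CharZero k] [Field E] [Algebra k E]
  (σ : E →ₐ[k] E) (n r d e : ℕ) (P : Po (n + 1 + 1) k) (F : Tup (n + 1 + 1) k)
  (y : Fin (n + 1 + 1) → E) (γ : Fin e → E), Mdl σ P r d F y → Spn σ γ →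
  ∃ (ec : ℕ) (θ Δ : Po (n + 1 + 1) k), Bas P F ec θ Δ ∧ ec ≤ d * e

/-- NRM: multiples of a function which depend only on the coordinates `X i.succ` -/
def T_NRM : Prop := ∀ (N r : ℕ) (k : Type) [Field k] (P D : Po (N + 1) k), Hyp P r → ¬ P ∣ D →
  ∃ (g : Po N k) (D' : Po (N + 1) k), g ≠ 0 ∧ P ∣ up g - D * D'

/-- TTH: the ideal of a place is totally invariant -/
def T_TTH : Prop := ∀ (k κ : Type) [Field k] [Field κ] [Algebra k κ] (τ : κ →ₐ[k] κ)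
  (n r d ec e : ℕ) (P θ Δ : Po (n + 1 + 1) k) (F : Tup (n + 1 + 1) k)
  (v : Fin (n + 1 + 1) → κ) (γ : Fin e → κ), Hyp P r → (∀ i, (F i).IsHomogeneous d) → 1 ≤ d →
  Bas P F ec θ Δ → v (Fin.succ 0) = 1 → P ∈ pid v →
  (∀ i, aeval v (F i) = aeval v (F (Fin.succ 0)) * τ (v i)) → aeval v (F (Fin.succ 0)) ≠ 0 →
  aeval F Δ ∉ pid v → Ind τ γ → (∀ i, Quo (k := k) v (γ i)) → ec ≤ d * e →
  Tot P F ec θ (pid v)

/-- PDV: an ideal of a place of codimension one is a prime divisor -/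
def T_PDV : Prop := ∀ (k κ : Type) [Field k] [Field κ] [Algebra k κ] (n r j : ℕ)
  (P : Po (n + 1 + 1) k) (v : Fin (n + 1 + 1) → κ) (u : Fin j → κ), Hyp P r →
  v (Fin.succ 0) = 1 → P ∈ pid v → AlgebraicIndependent k u → (∀ i, Quo (k := k) v (u i)) →
  n ≤ j + 1 → (∃ c ∈ pid v, ¬ P ∣ c) → ∃ h : Po (n + 1) k, Pdv P (pid v) h

/-- OVP: the place of a homogeneous prime ideal -/
def T_OVP : Prop := ∀ (k K : Type) [Field k] [Field K] [Algebra k K] (σ : K →ₐ[k] K)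
  (n r d : ℕ) (P : Po (n + 1 + 1) k) (F : Tup (n + 1 + 1) k) (y : Fin (n + 1 + 1) → K)
  (V : Ideal (Po (n + 1 + 1) k)) [V.IsPrime], Mdl σ P r d F y → Hmi V → P ∈ V →
  X (Fin.succ 0) ∉ V → (∀ c, aeval F c ∈ V ↔ c ∈ V) →
  ∃ (κ : Type) (_ : Field κ) (_ : Algebra k κ) (ψ : Po (n + 1 + 1) k →ₐ[k] κ) (τ : κ →ₐ[k] κ)
    (O : Subalgebra k K) (ρ : O →ₐ[k] κ), (∀ c, ψ c = 0 ↔ c ∈ V) ∧
    (∀ c, τ (ψ c) = ψ (aeval F c)) ∧ (∀ a : κ, ∃ A B, ψ B ≠ 0 ∧ a * ψ B = ψ A) ∧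
    Plc σ O ρ τ ∧ ∀ (a : K) (m : ℕ) (A B : Po (n + 1 + 1) k), A.IsHomogeneous m →
      B.IsHomogeneous m → B ∉ V → a * aeval y B = aeval y A → a ∈ O ∧ rv O ρ a * ψ B = ψ A

/-- TIN: bases stay independent at a totally invariant ideal -/
def T_TIN : Prop := ∀ (k K : Type) [Field k] [Field K] [Algebra k K] (σ : K →ₐ[k] K)
  (n r d ec e : ℕ) (P θ Δ : Po (n + 1 + 1) k) (F : Tup (n + 1 + 1) k)
  (y : Fin (n + 1 + 1) → K) (β : Fin e → K), Mdl σ P r d F y → Bas P F ec θ Δ → Ind σ β →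
  Spn σ β → ∃ D : Po (n + 1 + 1) k, ¬ P ∣ D ∧ ∀ (V : Ideal (Po (n + 1 + 1) k)) [V.IsPrime],
    P ∈ V → Tot P F ec θ V → (∀ c, aeval F c ∈ V ↔ c ∈ V) → D ∉ V →
    ∀ (κ : Type) [Field κ] [Algebra k κ] (ψ : Po (n + 1 + 1) k →ₐ[k] κ) (τ : κ →ₐ[k] κ),
      (∀ c, ψ c = 0 ↔ c ∈ V) → (∀ c, τ (ψ c) = ψ (aeval F c)) →
      (∀ a : κ, ∃ A B, ψ B ≠ 0 ∧ a * ψ B = ψ A) → ∀ δ : Fin e → κ,
      (∀ (i : Fin e) (m : ℕ) (A B : Po (n + 1 + 1) k), A.IsHomogeneous m → B.IsHomogeneous m →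
        B ∉ V → β i * aeval y B = aeval y A → δ i * ψ B = ψ A) → Ind τ δ

/-- AFP: the orbits in the model and in affine space -/
def T_AFP : Prop := ∀ (k K : Type) [Field k] [Field K] [Algebra k K] (σ : K →ₐ[k] K)
  (L : ℕ) (x : Fin L → K) (b : Po L k) (n r d : ℕ) (P : Po (n + 1 + 1) k)
  (F : Tup (n + 1 + 1) k) (y : Fin (n + 1 + 1) → K),
  IntermediateField.adjoin k (Set.range x) = ⊤ → aeval x b ≠ 0 → Mdl σ P r d F y →
  ∃ b' : Po (n + 1 + 1) k, (∃ m, b'.IsHomogeneous m) ∧ ¬ P ∣ b' ∧ X (Fin.succ 0) ∣ b' ∧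
    ∀ p : Fin (n + 1 + 1) → k, eval p P = 0 → (∀ j : ℕ, eval ((pmap F)^[j] p) b' ≠ 0) →
    ∃ z : ℕ → Fin L → k, (∀ (j : ℕ) (c : Po L k), aeval x c = 0 → eval (z j) c = 0) ∧
      (∀ j, eval (z j) b ≠ 0) ∧ (∀ j, Nxt σ x (z j) (z (j + 1))) ∧
      ∀ c : Po L k, (∀ j, eval (z j) c = 0) → ∃ (m : ℕ) (C' : Po (n + 1 + 1) k),
        C'.IsHomogeneous m ∧ (∀ j : ℕ, eval ((pmap F)^[j] p) C' = 0) ∧
        (P ∣ C' → aeval x c = 0)

end Pool.Agent.H14.TOW
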